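import Mathlib
import Pool.Agent.U514.SP.Stm

/-!
# Project SP, package NET: every net of gates in the plane is a circuit in `ℤ ^ d`

`t_NET : S_NET`.
-/

set_option autoImplicit false

namespace Pool.Agent.U928.SP.NET

open Finset
open Pool.Agent.H522R2 Pool.Agent.H522R2.Circuit Pool.Agent.H522R3.TW
open Pool.Agent.U514.MM Pool.Agent.U514.SP

/-- the number of the node of an operand -/
def idx {F V G : Type} {N : ℕ} (e : Fin N ≃ G) (o : Opd F V G) (dflt : ℕ) : ℕ :=
  match o with
  | .var _ => dflt
  | .const _ => dflt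
  | .ref h => 3 * (e.symm h : ℕ) + 2

/-- the leaf for an operand -/
def leaf {F V G : Type} [Field F] (k : ℕ) (o : Opd F V G) : Gate F V k :=
  match o with
  | .var v => .var v
  | .const c => .const c
  | .ref _ => .const 0

theorem leaf_ne_add {F V G : Type} [Field F] (k : ℕ) (o : Opd F V G) (i j : Fin k) :
    leaf k o ≠ .add i j := by
  cases o <;> simp [leaf]

theorem leaf_ne_mul {F V G : Type} [Field F] (k : ℕ) (o : Opd F V G) (i j : Fin k) :
    leaf k o ≠ .mul i j := by
  cases o <;> simp [leaf]

/-- the point of `ℤ ^ d` for a point of the plane -/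
def lift (d : ℕ) (x : ℤ × ℤ) (i : Fin d) : ℤ :=
  if i.val = 0 then x.1 else if i.val = 1 then x.2 else 0

theorem lift_inj {d : ℕ} (hd : 2 ≤ d) {x y : ℤ × ℤ} (h : lift d x = lift d y) : x = y := by
  have h0 := congrFun h ⟨0, by omega⟩
  have h1 := congrFun h ⟨1, by omega⟩
  simp only [lift, if_true, one_ne_zero, if_false] at h0 h1
  exact Prod.ext h0 h1

theorem lift_dist {d : ℕ} (hd : 2 ≤ d) (x y : ℤ × ℤ) :
    ∑ i, (lift d x i - lift d y i).natAbs = dst x y := by
  obtain ⟨n, rfl⟩ : ∃ n, d = n + 2 := ⟨d - 2, by omega⟩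
  rw [Fin.sum_univ_succ, Fin.sum_univ_succ]
  have h1 : ∑ i : Fin n, (lift (n + 2) x i.succ.succ - lift (n + 2) y i.succ.succ).natAbs = 0 := by
    apply sum_eq_zero
    intro i _
    simp [lift]
  rw [h1]
  simp [lift, dst]

theorem dst_comm (x y : ℤ × ℤ) : dst x y = dst y x := by
  unfold dst
  omega

theorem t_NET : S_NET := by
  intro F V _ P hP d hd
  classical
  let _ := P.inst
  obtain ⟨N, e, he⟩ : ∃ (N : ℕ) (e : Fin N ≃ P.G), ∀ i j, i ≤ j → P.rank (e i) ≤ P.rank (e j) := by
    refine ⟨Fintype.card P.G, (Tuple.sort (fun i => P.rank ((Fintype.equivFin P.G).symm i))).trans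
      (Fintype.equivFin P.G).symm, fun i j hij => ?_⟩
    exact Tuple.monotone_sort (fun i => P.rank ((Fintype.equivFin P.G).symm i)) hij
  have hlt : ∀ g h, P.rank h < P.rank g → e.symm h < e.symm g := by
    intro g h hr
    by_contra hcon
    push Not at hcon
    have := he _ _ hcon
    rw [Equiv.apply_symm_apply, Equiv.apply_symm_apply] at this
    omega
  -- the gates
  have hfst : ∀ j : Fin N, idx e (P.fst (e j)) (3 * j) < 3 * j + 2 := by
    intro j
    cases ho : P.fst (e j) with
    | var v => simp [idx]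
    | const c => simp [idx]
    | ref h =>
      have h1 := hlt (e j) h (hP.fst_rank _ _ ho)
      rw [Equiv.symm_apply_apply, Fin.lt_def] at h1
      simp only [idx]
      omega
  have hsnd : ∀ j : Fin N, idx e (P.snd (e j)) (3 * j + 1) < 3 * j + 2 := by
    intro j
    cases ho : P.snd (e j) with
    | var v => simp [idx]
    | const c => simp [idx]
    | ref h =>
      have h1 := hlt (e j) h (hP.snd_rank _ _ ho)
      rw [Equiv.symm_apply_apply, Fin.lt_def] at h1
      simp only [idx]
      omega
  have hex : ∀ k : Fin (3 * N), ∃ γ : Gate F V k,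
      (∀ j : Fin N, k.val = 3 * j → γ = leaf k (P.fst (e j))) ∧
      (∀ j : Fin N, k.val = 3 * j + 1 → γ = leaf k (P.snd (e j))) ∧
      (∀ j : Fin N, k.val = 3 * j + 2 → ∃ a b : Fin k, a.val = idx e (P.fst (e j)) (3 * j) ∧
        b.val = idx e (P.snd (e j)) (3 * j + 1) ∧ (P.mul (e j) = true → γ = .mul a b) ∧
        (P.mul (e j) = false → γ = .add a b)) := by
    intro k
    have hk := k.2
    obtain ⟨j, hj⟩ : ∃ j : Fin N, j.val = k.val / 3 := ⟨⟨k.val / 3, by omega⟩, rfl⟩
    have huniq : ∀ j' : Fin N, j'.val = k.val / 3 → j' = j := fun j' h => Fin.ext (by omega)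
    rcases (by omega : k.val % 3 = 0 ∨ k.val % 3 = 1 ∨ k.val % 3 = 2) with h | h | h
    · refine ⟨leaf k (P.fst (e j)), fun j' h' => ?_, fun j' h' => by omega,
        fun j' h' => by omega⟩
      rw [huniq j' (by omega)]
    · refine ⟨leaf k (P.snd (e j)), fun j' h' => by omega, fun j' h' => ?_,
        fun j' h' => by omega⟩
      rw [huniq j' (by omega)]
    · have hkj : k.val = 3 * j + 2 := by omega
      have ha := hfst j
      have hb := hsnd j
      cases hm : P.mul (e j) with
      | true =>
        refine ⟨.mul ⟨idx e (P.fst (e j)) (3 * j), by omega⟩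
          ⟨idx e (P.snd (e j)) (3 * j + 1), by omega⟩, fun j' h' => by omega,
          fun j' h' => by omega, fun j' h' => ?_⟩
        rw [huniq j' (by omega)]
        exact ⟨_, _, rfl, rfl, fun _ => rfl, fun h2 => absurd (hm.symm.trans h2) (by simp)⟩
      | false =>
        refine ⟨.add ⟨idx e (P.fst (e j)) (3 * j), by omega⟩
          ⟨idx e (P.snd (e j)) (3 * j + 1), by omega⟩, fun j' h' => by omega,
          fun j' h' => by omega, fun j' h' => ?_⟩
        rw [huniq j' (by omega)]
        exact ⟨_, _, rfl, rfl, fun h2 => absurd (hm.symm.trans h2) (by simp), fun _ => rfl⟩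
  choose gate h0 h1 h2 using hex
  let C : Circuit F V := ⟨3 * N, gate⟩
  have hCg : ∀ k, C.gate k = gate k := fun k => rfl
  let ν : Fin N → Fin C.nodes := fun j => ⟨3 * j + 2, by have := j.2; show _ < 3 * N; omega⟩
  have hν : ∀ j, (ν j).val = 3 * j + 2 := fun j => rfl
  -- leaves
  have hleaf0 : ∀ (j : Fin N) (hj : 3 * (j : ℕ) < C.nodes), (∀ h, P.fst (e j) ≠ .ref h) →
      C.poly ⟨3 * j, hj⟩ = (P.fst (e j)).eval P.pol := by
    intro j hj hr
    have hg : C.gate ⟨3 * j, hj⟩ = leaf _ (P.fst (e j)) := h0 _ j rfl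
    rw [poly, hg]
    cases ho : P.fst (e j) with
    | var v => simp [leaf, Opd.eval]
    | const c => simp [leaf, Opd.eval]
    | ref h => exact absurd ho (hr h)
  have hleaf1 : ∀ (j : Fin N) (hj : 3 * (j : ℕ) + 1 < C.nodes), (∀ h, P.snd (e j) ≠ .ref h) →
      C.poly ⟨3 * j + 1, hj⟩ = (P.snd (e j)).eval P.pol := by
    intro j hj hr
    have hg : C.gate ⟨3 * j + 1, hj⟩ = leaf _ (P.snd (e j)) := h1 _ j rfl
    rw [poly, hg]
    cases ho : P.snd (e j) with
    | var v => simp [leaf, Opd.eval]
    | const c => simp [leaf, Opd.eval]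
    | ref h => exact absurd ho (hr h)
  -- the polynomials
  have hpoly : ∀ (n : ℕ) (j : Fin N), j.val = n → C.poly (ν j) = P.pol (e j) := by
    intro n
    induction n using Nat.strong_induction_on with
    | _ n ih =>
    intro j hj
    obtain ⟨a, b, ha, hb, hm, hadd⟩ := h2 (ν j) j rfl
    have hpa : C.poly (C.up (ν j) a) = (P.fst (e j)).eval P.pol := by
      by_cases hr : ∀ h, P.fst (e j) ≠ .ref h
      · have h3 : idx e (P.fst (e j)) (3 * j) = 3 * j := by
          cases ho : P.fst (e j) with
          | var v => rfl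
          | const c => rfl
          | ref h => exact absurd ho (hr h)
        have h4 : C.up (ν j) a = ⟨3 * j, by have := j.2; show _ < 3 * N; omega⟩ :=
          Fin.ext (by show a.val = _; rw [ha, h3])
        rw [h4]
        exact hleaf0 j _ hr
      · push Not at hr
        obtain ⟨h, hr⟩ := hr
        have h5 := hlt (e j) h (hP.fst_rank _ _ hr)
        rw [Equiv.symm_apply_apply, Fin.lt_def] at h5
        have h4 : C.up (ν j) a = ν (e.symm h) :=
          Fin.ext (by show a.val = _; rw [ha, hr]; rfl)
        rw [h4, ih _ (by rw [← hj]; exact h5) (e.symm h) rfl, hr, Equiv.apply_symm_apply]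
        rfl
    have hpb : C.poly (C.up (ν j) b) = (P.snd (e j)).eval P.pol := by
      by_cases hr : ∀ h, P.snd (e j) ≠ .ref h
      · have h3 : idx e (P.snd (e j)) (3 * j + 1) = 3 * j + 1 := by
          cases ho : P.snd (e j) with
          | var v => rfl
          | const c => rfl
          | ref h => exact absurd ho (hr h)
        have h4 : C.up (ν j) b = ⟨3 * j + 1, by have := j.2; show _ < 3 * N; omega⟩ :=
          Fin.ext (by show b.val = _; rw [hb, h3])
        rw [h4]
        exact hleaf1 j _ hr
      · push Not at hr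
        obtain ⟨h, hr⟩ := hr
        have h5 := hlt (e j) h (hP.snd_rank _ _ hr)
        rw [Equiv.symm_apply_apply, Fin.lt_def] at h5
        have h4 : C.up (ν j) b = ν (e.symm h) :=
          Fin.ext (by show b.val = _; rw [hb, hr]; rfl)
        rw [h4, ih _ (by rw [← hj]; exact h5) (e.symm h) rfl, hr, Equiv.apply_symm_apply]
        rfl
    cases hmul : P.mul (e j) with
    | true =>
      have hg : C.gate (ν j) = .mul a b := hm hmul
      rw [hP.mul_eq _ hmul, ← hpa, ← hpb]
      conv_lhs => rw [poly, hg]
    | false =>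
      have hg : C.gate (ν j) = .add a b := hadd hmul
      rw [hP.add_eq _ hmul, ← hpa, ← hpb]
      conv_lhs => rw [poly, hg]
  -- which nodes are gates
  have hgate : ∀ j, IsGate C (ν j) := by
    intro j
    obtain ⟨a, b, ha, hb, hm, hadd⟩ := h2 (ν j) j rfl
    cases hmul : P.mul (e j) with
    | true => exact ⟨a, b, Or.inr (hm hmul)⟩
    | false => exact ⟨a, b, Or.inl (hadd hmul)⟩
  have hsurj : ∀ k : Fin C.nodes, IsGate C k → ∃ j, ν j = k := by
    intro k hk
    have hk2 : k.val < 3 * N := k.2
    obtain ⟨i', j', hk⟩ := hk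
    obtain ⟨j, hj⟩ : ∃ j : Fin N, j.val = k.val / 3 := ⟨⟨k.val / 3, by omega⟩, rfl⟩
    rcases (by omega : k.val % 3 = 0 ∨ k.val % 3 = 1 ∨ k.val % 3 = 2) with h | h | h
    · exfalso
      have h3 : C.gate k = leaf k (P.fst (e j)) := h0 k j (by omega)
      rw [h3] at hk
      rcases hk with hk | hk
      · exact leaf_ne_add _ _ _ _ hk
      · exact leaf_ne_mul _ _ _ _ hk
    · exfalso
      have h3 : C.gate k = leaf k (P.snd (e j)) := h1 k j (by omega)
      rw [h3] at hk
      rcases hk with hk | hk
      · exact leaf_ne_add _ _ _ _ hk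
      · exact leaf_ne_mul _ _ _ _ hk
    · exact ⟨j, Fin.ext (by rw [hν]; omega)⟩
  have hνinj : Function.Injective ν := by
    intro j j' h
    have := congrArg Fin.val h
    rw [hν, hν] at this
    exact Fin.ext (by omega)
  let φ : P.G ≃ {k : Fin C.nodes // IsGate C k} := Equiv.ofBijective
    (fun g => ⟨ν (e.symm g), hgate _⟩) ⟨by
      intro g g' h
      exact e.symm.injective (hνinj (congrArg Subtype.val h)), by
      intro k
      obtain ⟨j, hj⟩ := hsurj k.1 k.2
      exact ⟨e j, Subtype.ext (by simp [hj])⟩⟩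
  have hφ : ∀ g, (φ g).1 = ν (e.symm g) := fun g => rfl
  -- the positions
  refine ⟨C, fun k => lift d (P.pos (φ.symm k)), ?_, ?_, ?_⟩
  · intro k k' h
    exact φ.symm.injective (hP.inj (lift_inj hd h))
  · intro g
    exact ⟨ν (e.symm g), by rw [hpoly _ _ rfl, Equiv.apply_symm_apply]⟩
  -- the cost
  have hsize : C.size = Fintype.card P.G := by
    rw [size_eq, Nat.card_eq_fintype_card]
    exact (Fintype.card_congr φ).symm
  have hfeeds : ∀ g h : P.G, Feeds C (φ h).1 (φ g).1 → P.fst g = .ref h ∨ P.snd g = .ref h := by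
    intro g h hf
    obtain ⟨a, b, ha, hb, hm, hadd⟩ := h2 (ν (e.symm g)) (e.symm g) rfl
    rw [Equiv.apply_symm_apply] at ha hb hm hadd
    have h3 : C.up (ν (e.symm g)) a = ν (e.symm h) ∨ C.up (ν (e.symm g)) b = ν (e.symm h) := by
      cases hmul : P.mul g with
      | true => exact (feeds_mul (hm hmul : C.gate (ν (e.symm g)) = _)).1 hf
      | false => exact (feeds_add (hadd hmul : C.gate (ν (e.symm g)) = _)).1 hf
    rcases h3 with h3 | h3
    · left
      have h4 : a.val = 3 * (e.symm h : ℕ) + 2 := congrArg Fin.val h3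
      rw [ha] at h4
      cases ho : P.fst g with
      | var v => rw [ho] at h4; simp only [idx] at h4; omega
      | const c => rw [ho] at h4; simp only [idx] at h4; omega
      | ref h' =>
        rw [ho] at h4
        simp only [idx] at h4
        have h5 : e.symm h' = e.symm h := Fin.ext (by omega)
        rw [e.symm.injective h5]
    · right
      have h4 : b.val = 3 * (e.symm h : ℕ) + 2 := congrArg Fin.val h3
      rw [hb] at h4
      cases ho : P.snd g with
      | var v => rw [ho] at h4; simp only [idx] at h4; omega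
      | const c => rw [ho] at h4; simp only [idx] at h4; omega
      | ref h' =>
        rw [ho] at h4
        simp only [idx] at h4
        have h5 : e.symm h' = e.symm h := Fin.ext (by omega)
        rw [e.symm.injective h5]
  have hopd : ∀ (o : Opd F V P.G) (g : P.G),
      ∑ h, (if o = .ref h then dst (P.pos h) (P.pos g) else 0) ≤ o.len P.pos (P.pos g) := by
    intro o g
    cases o with
    | var v => simp
    | const c => simp
    | ref h' =>
      have h3 : ∀ h, (Opd.ref h' : Opd F V P.G) = .ref h ↔ h' = h := fun h =>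
        ⟨fun h4 => by injection h4, fun h4 => by rw [h4]⟩
      simp only [h3, Opd.len]
      rw [sum_ite_eq]
      simp
  have hwire : wireLength C (fun k => lift d (P.pos (φ.symm k))) ≤
      ∑ g, ((P.fst g).len P.pos (P.pos g) + (P.snd g).len P.pos (P.pos g)) := by
    unfold wireLength
    simp only [lift_dist hd]
    rw [sum_filter, ← (Equiv.prodCongr φ φ).sum_comp, Fintype.sum_prod_type_right]
    apply sum_le_sum
    intro g _
    refine le_trans ?_ (add_le_add (hopd (P.fst g) g) (hopd (P.snd g) g))
    rw [← sum_add_distrib]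
    apply sum_le_sum
    intro h _
    simp only [Equiv.prodCongr_apply, Prod.map, Equiv.symm_apply_apply]
    by_cases hf : Feeds C (φ h).1 (φ g).1
    · rw [if_pos hf]
      rcases hfeeds g h hf with h3 | h3
      · rw [if_pos h3]; omega
      · rw [if_pos h3]; omega
    · rw [if_neg hf]
      exact Nat.zero_le _
  have hcost : P.cost = Fintype.card P.G +
      ∑ g, ((P.fst g).len P.pos (P.pos g) + (P.snd g).len P.pos (P.pos g)) := by
    unfold Net.cost
    simp only [add_assoc]
    rw [sum_add_distrib]
    simp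
  rw [hsize, hcost]
  exact Nat.add_le_add_left hwire _

end Pool.Agent.U928.SP.NET
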